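import Mathlib
import Pool.Agent.R821.PsI

/-!
# Pseudocompact abelian groups: group topologies which are not selectively pseudocompact

Every infinite abelian group which admits a pseudocompact Hausdorff group topology admits one which is not
selectively pseudocompact (in ZFC).

Sketch. Let `X` be the group of continuous characters of the given topology; pseudocompactness says that
every homomorphism to `𝕋` from a countable subgroup of `X` is realised by an element of `G`. Choose a
suitable countable subgroup `A` of `X`, let `Z` be its annihilator and `Q = G/Z`, a group of size at most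
continuum. On `Q` there is a group `B` of (discontinuous) characters all of whose countable parts are
realised in `Q` and such that every character of `Q` agrees on every countable subset with a member of
`B`. If the homomorphism `a ↦ -a` from `A` to `Hom(Q,𝕋)/B` extends to `X` one can replace `A` by `B` and
gets a pseudocompact group topology on `G` for which `B` consists of continuous characters. For unbounded
`X` one arranges that `Hom(Q,𝕋)/B` is divisible; for bounded `X` one chooses `A ≅ ⊕_ω ℤ/p^k` such that
the extension exists. The new topology is not selectively pseudocompact: for a fast null sequence in `𝕋`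
there is a discontinuous endomorphism of `𝕋` which keeps it away from zero (a triangular argument in the
bounded case).
-/

set_option autoImplicit false

open Topology

namespace Pool.Agent.Results.MP_b5ec3e_gt.NotSelectivelyZFC

open Pool.Agent.R821 Pool.Agent.R821.Bp

universe u

theorem result : ∀ (G : Type u) [AddCommGroup G] [Infinite G],
    (∃ t : TopologicalSpace G, @IsTopologicalAddGroup G t _ ∧ @T2Space G t ∧ @Pseudocompact G t) →
    ∃ t : TopologicalSpace G, @IsTopologicalAddGroup G t _ ∧ @T2Space G t ∧ @Pseudocompact G t ∧
      ¬ @SelectivelyPseudocompact G t := by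
  rintro G _ _ ⟨t, ht1, ht2, ht3⟩
  have hX := Ps.P1_chars (G := G) ht3
  have hsep := Ps.sep_chars (G := G) ht3
  obtain ⟨X', h1, h2, h3⟩ : ∃ X' : AddSubgroup (G →+ T), Ps.P1 X' ∧ Ps.Sep X' ∧
      ¬ @SelectivelyPseudocompact G (Ps.top X') := by
    by_cases h : ∀ n : ℕ, n ≠ 0 → ∃ χ ∈ Ps.chars G, n • χ ≠ 0
    · exact Ps.unbounded_case _ hX hsep h
    · push Not at h
      obtain ⟨N, hN, hb⟩ := h
      exact Ps.bounded_case _ hX hsep N hN hb
  exact ⟨Ps.top X', Ps.isTopologicalAddGroup X', Ps.t2 h2, Ps.pseudocompact_of_P1 h1, h3⟩

end Pool.Agent.Results.MP_b5ec3e_gt.NotSelectivelyZFC
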